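import Pool.Graph.R_pool_sql_team_39128cda.H.MP_a4908e.A

/-!
# `C_p(X) ≅ C_p(Y)` with `X` a locally compact, first countable space all of whose subsets are
`G_δ`, and `Y` with a point of arbitrarily large pseudocharacter
-/

set_option autoImplicit false
open Set Function Topology Filter TopologicalSpace

namespace Pool.Agent.Results.MP_a4908e_gt.ArbitraryPseudocharacter
open Pool.Agent.H.MP_a4908e (CP CB q qc XX YY i0 i1 j0 j1 cX cY e0 e1 perfX q0 nb i0c i1c)
universe u

/-- `C_p(X)` and `C_p(Y)` are linearly homeomorphic: there is a homeomorphism between the spaces of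
continuous real functions with the topology of pointwise convergence (the subspace topology
inherited from `X → ℝ` and `Y → ℝ`) which respects linear combinations. -/
def LinearlyHomeomorphic (X Y : Type u) [TopologicalSpace X] [TopologicalSpace Y] : Prop :=
  ∃ Φ : {f : X → ℝ // Continuous f} ≃ₜ {g : Y → ℝ // Continuous g},
    ∀ (a : ℝ) (f g h : {f : X → ℝ // Continuous f}),
      h.1 = a • f.1 + g.1 → (Φ h).1 = a • (Φ f).1 + (Φ g).1

lemma linHomeo {N : Type u} [TopologicalSpace N] (B : Set N) (z₀ : N) :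
    LinearlyHomeomorphic (XX B) (YY B z₀) := by
  refine ⟨Pool.Agent.H.MP_a4908e.EH B z₀, fun a f g k e => funext fun p => ?_⟩
  obtain ⟨x, y, w, hp⟩ := Pool.Agent.H.MP_a4908e.hT B z₀ p
  change (Pool.Agent.H.MP_a4908e.E B z₀ k).1 p = a * (Pool.Agent.H.MP_a4908e.E B z₀ f).1 p +
    (Pool.Agent.H.MP_a4908e.E B z₀ g).1 p
  simp only [hp, e, Pi.add_apply, Pi.smul_apply, smul_eq_mul]
  ring

section general

variable {N : Type u} [TopologicalSpace N] (B : Set N) (z₀ : N)

/-- the projection -/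
def π (p : XX B) : N := p.1.1

lemma πc : Continuous (π B) := continuous_fst.comp continuous_subtype_val

lemma pre_π (K : Set N) : π B ⁻¹' K = i0 B '' K ∪ i1 B '' K := by
  ext p
  constructor
  · intro hp
    rcases cX B p with ⟨z, rfl⟩ | ⟨z, rfl⟩
    · exact Or.inl ⟨z, hp, rfl⟩
    · exact Or.inr ⟨z, hp, rfl⟩
  · rintro (⟨z, hz, rfl⟩ | ⟨z, hz, rfl⟩) <;> exact hz

lemma lcX [WeaklyLocallyCompactSpace N] : WeaklyLocallyCompactSpace (XX B) := by
  refine ⟨fun p => ?_⟩
  obtain ⟨K, hK, hKn⟩ := exists_compact_mem_nhds (π B p)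
  refine ⟨π B ⁻¹' K, ?_, (πc B).continuousAt.preimage_mem_nhds hKn⟩
  rw [pre_π]
  exact (hK.image (i0c B)).union (hK.image (i1c B))

variable [T35Space N]

lemma nhds_B {B : Set N} {z : N} (hz : z ∈ B) (p : XX B) (hp : π B p = z) :
    𝓝 p = comap (π B) (𝓝 z) := by
  subst hp
  refine le_antisymm (map_le_iff_le_comap.1 (πc B).continuousAt) ?_
  have h0 : p.1.2 = 0 := by
    rcases p.2 with h | h
    · exact h
    · rw [h]; exact funext fun g => g.2 _ hz
  have hq : q B (π B p) = 0 := funext fun g => g.2 _ hz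
  rw [nhds_subtype_eq_comap, ← Filter.tendsto_iff_comap]
  rw [show (p : N × (CB B → ℝ)) = (π B p, 0) from Prod.ext rfl h0, nhds_prod_eq]
  refine Tendsto.prodMk (tendsto_comap) ?_
  intro W hW
  have h1 : q B ⁻¹' W ∈ 𝓝 (π B p) := (qc B).continuousAt.preimage_mem_nhds (by rwa [hq])
  refine ⟨_, h1, fun r hr => ?_⟩
  rcases r.2 with h | h
  · change r.1.2 ∈ W
    rw [h]; exact mem_of_mem_nhds hW
  · change r.1.2 ∈ W
    rw [h]; exact hr

lemma fcX [FirstCountableTopology N] (hB : IsClosed B) : FirstCountableTopology (XX B) := by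
  refine ⟨fun p => ?_⟩
  by_cases hz : π B p ∈ B
  · rw [nhds_B hz p rfl]; infer_instance
  · rcases cX B p with ⟨z, rfl⟩ | ⟨z, rfl⟩
    · have h1 : range (i0 B) ∈ 𝓝 (i0 B z) := by
        refine mem_of_superset (((e1 B).isClosed_range.isOpen_compl).mem_nhds ?_) ?_
        · rintro ⟨w, hw⟩
          have h2 : q B w = 0 := congrArg (fun p : XX B => p.1.2) hw
          have h3 : w = z := congrArg (fun p : XX B => p.1.1) hw
          exact hz (h3 ▸ q0 hB h2)
        · intro p hp
          rcases cX B p with ⟨w, rfl⟩ | ⟨w, rfl⟩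
          · exact ⟨w, rfl⟩
          · exact absurd ⟨w, rfl⟩ hp
      rw [← (e0 B).isEmbedding.map_nhds_of_mem z h1]; infer_instance
    · have h1 : range (i1 B) ∈ 𝓝 (i1 B z) := by
        refine mem_of_superset (((e0 B).isClosed_range.isOpen_compl).mem_nhds ?_) ?_
        · rintro ⟨w, hw⟩
          have h2 : 0 = q B z := congrArg (fun p : XX B => p.1.2) hw
          exact hz (q0 hB h2.symm)
        · intro p hp
          rcases cX B p with ⟨w, rfl⟩ | ⟨w, rfl⟩
          · exact absurd ⟨w, rfl⟩ hp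
          · exact ⟨w, rfl⟩
      rw [← (e1 B).isEmbedding.map_nhds_of_mem z h1]; infer_instance

lemma psY {T : Type u} {B : Set N} {z₀ : N} (hB : IsClosed B) {U : T → Set (YY B z₀)}
    (h1 : ∀ t, IsOpen (U t)) (h2 : ⋂ t, U t = {j0 B z₀ z₀}) :
    ∃ g : T × ℕ → CP N, B = {z | ∀ n, (g n).1 z = 0} := by
  choose F f1 ε f2 f3 using fun t => nb B z₀ ((h1 t).mem_nhds (mem_iInter.1 (h2.ge rfl) t))
  choose g hg using fun t => ((f1 t).countable.insert
    (⟨⟨0, continuous_const⟩, fun _ _ => rfl⟩ : CB B)).exists_eq_range (insert_nonempty _ _)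
  refine ⟨fun p => (g p.1 p.2).1, Subset.antisymm (fun z hz p => (g p.1 p.2).2 z hz) fun z hz =>
    q0 hB ?_⟩
  refine congrArg (fun p : YY B z₀ => p.1.2) (h2.le (mem_iInter.2 fun t => f3 t z fun f hf => ?_) :
    j1 B z₀ z = _)
  obtain ⟨m, rfl⟩ : f ∈ range (g t) := hg t ▸ Or.inr hf
  simpa [hz (t, m)] using f2 t

end general

section tree

variable {α : Type u}

variable (α) in
abbrev Γ : Type u := ℕ → α
variable (α) in
abbrev J : Type u := List α ⊕ Γ α

def pre (x : Γ α) (k : ℕ) : List α := List.ofFn fun i : Fin k => x i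

open Classical in
noncomputable def e : J α → J α → Bool :=
  Sum.elim (fun s => Sum.elim (fun t => decide (t = s)) fun y => decide (s = pre y s.length))
    fun x => Sum.elim (fun _ => false) fun y => decide (y = x)

variable (α) in
abbrev Ψ : Type u := range (e (α := α))

noncomputable def ee (j : J α) : Ψ α := ⟨e j, j, rfl⟩

lemma coordc (j : J α) (b : Bool) : IsOpen {p : Ψ α | p.1 j = b} := by
  have h : Continuous fun p : Ψ α => p.1 j := (continuous_apply j).comp continuous_subtype_val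
  exact (isOpen_discrete ({b} : Set Bool)).preimage h

@[simp] lemma ee_ll (s t : List α) : (ee (.inl s)).1 (.inl t) = true ↔ t = s := by
  simp [ee, e]
@[simp] lemma ee_lr (s : List α) (y : Γ α) :
    (ee (.inl s)).1 (.inr y) = true ↔ s = pre y s.length := by
  simp [ee, e]
@[simp] lemma ee_rl (x : Γ α) (t : List α) : (ee (.inr x)).1 (.inl t) = false := by
  simp [ee, e]
@[simp] lemma ee_rr (x y : Γ α) : (ee (.inr x)).1 (.inr y) = true ↔ y = x := by
  simp [ee, e]

def BA (A : Set (Γ α)) : Set (Ψ α) := (ee ∘ .inr) '' A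

lemma BAc (A : Set (Γ α)) : IsClosed (BA A) := by
  rw [← isOpen_compl_iff, isOpen_iff_forall_mem_open]
  rintro ⟨_, s | x, rfl⟩ h
  · refine ⟨{p | p.1 (.inl s) = true}, ?_, coordc _ _, (ee_ll s s).2 rfl⟩
    rintro _ hp ⟨y, hy, rfl⟩
    have h1 : (ee (.inr y)).1 (.inl s) = true := hp
    rw [ee_rl] at h1
    exact absurd h1 (by simp)
  · refine ⟨{p | p.1 (.inr x) = true}, ?_, coordc _ _, (ee_rr x x).2 rfl⟩
    rintro _ hp ⟨y, hy, rfl⟩
    have h1 : (ee (.inr y)).1 (.inr x) = true := hp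
    rw [ee_rr] at h1
    exact h ⟨y, hy, congrArg (fun z => ee (.inr z)) h1.symm⟩

lemma levc (C : Set (List α)) (n : ℕ) :
    IsClosed ((ee ∘ .inl) '' {t | t ∈ C ∧ t.length = n} : Set (Ψ α)) := by
  rw [← isOpen_compl_iff, isOpen_iff_forall_mem_open]
  rintro ⟨_, s | x, rfl⟩ h
  · refine ⟨{p | p.1 (.inl s) = true}, ?_, coordc _ _, (ee_ll s s).2 rfl⟩
    rintro _ hp ⟨t, ht, rfl⟩
    have h1 : (ee (.inl t)).1 (.inl s) = true := hp
    rw [ee_ll] at h1
    subst h1
    exact h ⟨_, ht, rfl⟩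
  · refine ⟨{p | p.1 (.inr x) = true} ∩ {p | p.1 (.inl (pre x n)) = false}, ?_,
      (coordc _ _).inter (coordc _ _), (ee_rr x x).2 rfl, ee_rl x _⟩
    rintro _ ⟨hp, hp'⟩ ⟨t, ht, rfl⟩
    have h1 : (ee (.inl t)).1 (.inr x) = true := hp
    have h2 : (ee (.inl t)).1 (.inl (pre x n)) = false := hp'
    rw [ee_lr, ht.2] at h1
    rw [← Bool.not_eq_true, ee_ll] at h2
    exact h2 h1.symm

lemma perfΨ (s : Set (Ψ α)) : IsGδ s := by
  have : s = (⋂ n, ((ee ∘ .inl) '' {t | t ∈ (ee ∘ .inl) ⁻¹' sᶜ ∧ t.length = n})ᶜ) ∩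
      (BA ((ee ∘ .inr) ⁻¹' sᶜ))ᶜ := by
    refine Subset.antisymm (fun p hp => ⟨mem_iInter.2 fun n => ?_, ?_⟩) ?_
    · rintro ⟨t, ht, rfl⟩
      exact ht.1 hp
    · rintro ⟨x, hx, rfl⟩
      exact hx hp
    · rintro ⟨_, t | x, rfl⟩ h <;> by_contra hn
      · exact mem_iInter.1 h.1 t.length ⟨t, ⟨hn, rfl⟩, rfl⟩
      · exact h.2 ⟨x, hn, rfl⟩
  rw [this]
  exact (IsGδ.iInter_of_isOpen fun n => (levc _ n).isOpen_compl).inter (BAc _).isOpen_compl.isGδ

lemma tendΨ (x : Γ α) : Tendsto (fun k => (ee (.inl (pre x k)) : Ψ α)) atTop (𝓝 (ee (.inr x))) := by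
  refine tendsto_subtype_rng.2 (tendsto_pi_nhds.2 fun j => tendsto_const_nhds.congr' ?_)
  rcases j with t | y
  · filter_upwards [eventually_gt_atTop t.length] with k hk
    have : t ≠ pre x k := fun e => by simp [e, pre] at hk
    simp [ee, e, this]
  · by_cases h : y = x
    · exact .of_forall fun k => by simp [ee, e, h, pre]
    · obtain ⟨i, hi⟩ := Function.ne_iff.1 h
      filter_upwards [eventually_gt_atTop i] with k hk
      have : pre x k ≠ pre y k := fun e => hi (congrFun (List.ofFn_injective e) ⟨i, hk⟩).symm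
      simpa [ee, e, h, pre] using this

lemma denseΨ : DenseRange (ee ∘ .inl : List α → Ψ α) := by
  rintro ⟨_, t | x, rfl⟩
  · exact subset_closure ⟨t, rfl⟩
  · exact mem_closure_of_tendsto (tendΨ x) (.of_forall fun k => ⟨_, rfl⟩)

/-- the basic neighbourhoods of a branch -/
def nbr (x : Γ α) (n : ℕ) : Set (Ψ α) :=
  {p | p.1 (.inr x) = true} ∩ ⋂ k : Fin n, {p | p.1 (.inl (pre x k)) = false}

lemma nbr_open (x : Γ α) (n : ℕ) : IsOpen (nbr x n) :=
  (coordc _ _).inter (isOpen_iInter_of_finite fun _ => coordc _ _)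

lemma mem_nbr (x : Γ α) (n : ℕ) : ee (.inr x) ∈ nbr x n :=
  ⟨(ee_rr x x).2 rfl, mem_iInter.2 fun _ => ee_rl x _⟩

lemma nbr_sub (x : Γ α) (n : ℕ) {p : Ψ α} (hp : p ∈ nbr x n) :
    p = ee (.inr x) ∨ ∃ k, n ≤ k ∧ p = ee (.inl (pre x k)) := by
  obtain ⟨_, t | y, rfl⟩ := p
  · right
    have h1 : t = pre x t.length := (ee_lr t x).1 hp.1
    refine ⟨t.length, ?_, congrArg (fun z => ee (.inl z)) h1⟩
    by_contra hn
    push Not at hn
    have h2 : (ee (.inl t)).1 (.inl (pre x t.length)) = false :=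
      mem_iInter.1 hp.2 ⟨t.length, hn⟩
    rw [← h1, ← Bool.not_eq_true, ee_ll] at h2
    exact h2 rfl
  · left
    have h1 : x = y := (ee_rr y x).1 hp.1
    exact congrArg (fun z => ee (.inr z)) h1.symm

lemma isolated (t : List α) : IsOpen ({ee (.inl t)} : Set (Ψ α)) := by
  convert coordc (α := α) (.inl t) true using 1
  ext ⟨_, s | y, rfl⟩
  · constructor
    · intro h
      rw [mem_singleton_iff.1 h]
      exact (ee_ll t t).2 rfl
    · intro h
      exact congrArg (fun z => ee (.inl z)) ((ee_ll s t).1 h).symm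
  · constructor
    · intro h
      rw [mem_singleton_iff.1 h]
      exact (ee_ll t t).2 rfl
    · intro h
      have h1 : (ee (.inr y)).1 (.inl t) = true := h
      rw [ee_rl] at h1
      exact absurd h1 (by simp)

lemma basis (x : Γ α) : (𝓝 (ee (.inr x))).HasBasis (fun _ : ℕ => True) (nbr x) := by
  refine ⟨fun s => ⟨fun hs => ?_, ?_⟩⟩
  · obtain ⟨n, hn⟩ := eventually_atTop.1 ((tendΨ x).eventually hs)
    refine ⟨n, trivial, fun p hp => ?_⟩
    rcases nbr_sub x n hp with rfl | ⟨k, hk, rfl⟩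
    · exact mem_of_mem_nhds hs
    · exact hn k hk
  · rintro ⟨n, -, h⟩
    exact mem_of_superset ((nbr_open x n).mem_nhds (mem_nbr x n)) h

instance : FirstCountableTopology (Ψ α) := by
  refine ⟨?_⟩
  rintro ⟨_, t | x, rfl⟩
  · have : 𝓝 (ee (.inl t) : Ψ α) = pure (ee (.inl t)) := (isOpen_singleton_iff_nhds_eq_pure _).1
      (isolated t)
    change (𝓝 (ee (.inl t) : Ψ α)).IsCountablyGenerated
    rw [this]; infer_instance
  · exact (basis x).isCountablyGenerated

instance : WeaklyLocallyCompactSpace (Ψ α) := by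
  refine ⟨?_⟩
  rintro ⟨_, t | x, rfl⟩
  · exact ⟨{ee (.inl t)}, isCompact_singleton, (isolated t).mem_nhds rfl⟩
  · refine ⟨_, (tendΨ x).isCompact_insert_range, mem_of_superset ((nbr_open x 0).mem_nhds
      (mem_nbr x 0)) fun p hp => ?_⟩
    rcases nbr_sub x 0 hp with h | ⟨k, -, h⟩
    · exact Or.inl h
    · exact Or.inr ⟨k, h.symm⟩

end tree

section card

/-- iterated power sets -/
def lev (T : Type u) : ℕ → Type u
  | 0 => T
  | n + 1 => Set (lev T n)

/-- the disjoint union of the iterated power sets of `T` -/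
def Al (T : Type u) : Type u := Σ n, lev T n

/-- the injection of the power set of `Al T` into the sequences -/
def inj (T : Type u) (A : Set (Al T)) : ℕ → Al T :=
  fun n => ⟨n + 1, ({a | (⟨n, a⟩ : Al T) ∈ A} : Set (lev T n))⟩

lemma inj_inj (T : Type u) : Injective (inj T) := by
  intro A A' h
  ext ⟨n, a⟩
  have h1 := congrFun h n
  have h2 : ({a | (⟨n, a⟩ : Al T) ∈ A} : Set (lev T n)) = {a | (⟨n, a⟩ : Al T) ∈ A'} :=
    eq_of_heq (Sigma.mk.inj h1).2
  exact Set.ext_iff.1 h2 a

instance (T : Type u) : Infinite (Al T) := by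
  refine Infinite.of_injective (fun n : ℕ => (⟨n + 1, (∅ : Set (lev T n))⟩ : Al T)) ?_
  intro n m h
  have := congrArg Sigma.fst h
  simpa using this

open Cardinal in
lemma card_lt (T : Type u) :
    #((T × ℕ) → List (Al T) → ℝ) < #(Set (ℕ → Al T)) := by
  have hκ : ℵ₀ ≤ #(Al T) := Cardinal.aleph0_le_mk _
  have hT : #T ≤ #(Al T) :=
    Cardinal.mk_le_of_injective (f := fun t : T => (⟨0, t⟩ : Al T)) fun a b h => by
      have := Sigma.mk.inj h
      exact eq_of_heq this.2
  have h1 : #(List (Al T) → ℝ) = 2 ^ #(Al T) := by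
    rw [Cardinal.mk_arrow, Cardinal.mk_list_eq_mk, Cardinal.mk_real, Cardinal.lift_continuum,
      ← Cardinal.two_power_aleph0, Cardinal.lift_id'.{0, u}, ← Cardinal.power_mul,
      Cardinal.aleph0_mul_eq hκ]
  have h2 : #((T × ℕ) → List (Al T) → ℝ) ≤ 2 ^ #(Al T) := by
    have h3 : #((T × ℕ) → List (Al T) → ℝ) = #(List (Al T) → ℝ) ^ #(T × ℕ) := by
      simp
    rw [h3, h1, ← Cardinal.power_mul]
    refine Cardinal.power_le_power_left two_ne_zero (Cardinal.mul_le_of_le hκ le_rfl ?_)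
    rw [Cardinal.mk_prod, Cardinal.mk_nat, Cardinal.lift_aleph0, Cardinal.lift_id'.{0, u}]
    exact Cardinal.mul_le_of_le hκ hT hκ
  refine h2.trans_lt ?_
  rw [← Cardinal.mk_set]
  calc #(Set (Al T)) < 2 ^ #(Set (Al T)) := Cardinal.cantor _
    _ = #(Set (Set (Al T))) := Cardinal.mk_set.symm
    _ ≤ #(Set (ℕ → Al T)) := Cardinal.mk_le_of_injective (image_injective.2 (inj_inj T))

end card

/-- **Perfectness is not `l`-invariant, with arbitrarily large pseudocharacter.** For every type `T`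
(that is, for every cardinal number `|T|`) there are Tychonoff spaces `X` and `Y` with `C_p(X)`
linearly homeomorphic to `C_p(Y)` such that `X` is locally compact, first countable and perfect
(every subset of `X` is a `G_δ`), while `Y` has a point `y` for which `{y}` is not the intersection
of any family of open sets indexed by `T`: open sets `U t ∋ y` always have another point in
common. -/
theorem result (T : Type u) :
    ∃ (X Y : Type u) (_ : TopologicalSpace X) (_ : TopologicalSpace Y),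
      T35Space X ∧ T35Space Y ∧ LinearlyHomeomorphic X Y ∧
      LocallyCompactSpace X ∧ FirstCountableTopology X ∧ (∀ s : Set X, IsGδ s) ∧
      ∃ y : Y, ∀ U : T → Set Y, (∀ t, IsOpen (U t) ∧ y ∈ U t) → ∃ z : Y, z ≠ y ∧ ∀ t, z ∈ U t := by
  obtain ⟨A, hA⟩ : ∃ A : Set (Γ (Al T)), ∀ U : T → Set (YY (BA A) (ee (.inl []))),
      (∀ t, IsOpen (U t)) → ⋂ t, U t ≠ {j0 (BA A) (ee (.inl [])) (ee (.inl []))} := by
    by_contra H
    push Not at H
    choose U hU hU' using H
    choose g hg using fun A => psY (BAc A) (hU A) (hU' A)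
    refine (card_lt T).not_ge (Cardinal.mk_le_of_injective
      (f := fun A n t => (g A n).1 (ee (.inl t))) fun A A' h => ?_)
    have h1 : g A = g A' := funext fun n => Subtype.ext (denseΨ.equalizer (g A n).2 (g A' n).2
      (congrFun h n))
    have h2 : BA A = BA A' := (hg A).trans (h1 ▸ (hg A').symm)
    refine (image_injective.2 fun x y h => ?_) h2
    have h3 : (ee (.inr x)).1 (.inr x) = (ee (.inr y)).1 (.inr x) :=
      congrFun (congrArg Subtype.val h) (.inr x)
    rw [(ee_rr x x).2 rfl] at h3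
    exact (ee_rr y x).1 h3.symm
  have _ : WeaklyLocallyCompactSpace (XX (BA A)) := lcX _
  refine ⟨XX (BA A), YY (BA A) (ee (.inl [])), inferInstance, inferInstance, inferInstance,
    inferInstance, linHomeo _ _, inferInstance, fcX _ (BAc A), fun s => perfX _ perfΨ s,
    j0 (BA A) (ee (.inl [])) (ee (.inl [])), fun U hU => ?_⟩
  by_contra hn
  push Not at hn
  refine hA U (fun t => (hU t).1) (Subset.antisymm (fun z hz => ?_)
    (singleton_subset_iff.2 (mem_iInter.2 fun t => (hU t).2)))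
  by_contra hz'
  obtain ⟨t, ht⟩ := hn z hz'
  exact ht (mem_iInter.1 hz t)

end Pool.Agent.Results.MP_a4908e_gt.ArbitraryPseudocharacter
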